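import Pool.Agent.H93M.F

open Matrix
open scoped ENNReal ComplexOrder

namespace Pool.Agent.Results.MP_9bce2c_an.PowerMeansSchatten

/-- The singular values of a complex `n × n` matrix. -/
noncomputable def singularValue {n : ℕ} (A : Matrix (Fin n) (Fin n) ℂ) (i : Fin n) : ℝ :=
  Real.sqrt ((Matrix.isHermitian_conjTranspose_mul_self A).eigenvalues i)

/-- The Schatten `q`-norm: the `ℓ_q` norm of the vector of singular values, `1 ≤ q ≤ ∞`. -/
noncomputable def schattenNorm {n : ℕ} (q : ℝ≥0∞) (A : Matrix (Fin n) (Fin n) ℂ) : ℝ :=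
  ‖(WithLp.toLp q (singularValue A) : PiLp q (fun _ : Fin n => ℝ))‖

/-- The weighted power mean `(t X ^ p + (1 - t) Y ^ p) ^ (1 / p)` (functional calculus). -/
noncomputable def powerMean {n : ℕ} (p t : ℝ) (X Y : Matrix (Fin n) (Fin n) ℂ) :
    Matrix (Fin n) (Fin n) ℂ :=
  cfc (fun x : ℝ => x ^ (1 / p))
    (t • cfc (fun x : ℝ => x ^ p) X + (1 - t) • cfc (fun x : ℝ => x ^ p) Y)

/-- The power mean of exponent `p` is monotonic with respect to the Schatten metric of exponent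
`q`: for every `n ≥ 1` and all positive definite `X, Y` the function
`t ↦ ‖μ_t(X, Y) - Y‖_q` is nondecreasing on `[0, 1]`. -/
def Monotonic (p : ℝ) (q : ℝ≥0∞) : Prop :=
  ∀ (n : ℕ), 1 ≤ n → ∀ X Y : Matrix (Fin n) (Fin n) ℂ, X.PosDef → Y.PosDef →
    MonotoneOn (fun t : ℝ => schattenNorm q (powerMean p t X Y - Y)) (Set.Icc 0 1)

/-- **Weighted power means and Schatten metrics.** For every `q ∈ [1, ∞]` the power mean of
exponent `p = 1 / 2` is monotonic with respect to `δ_q`. It is not monotonic for `p < 0` and for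
`0 < p ≤ 1 / 40` (every `q`), for `p > 1` (every `q ≠ 2`), and for `p > 2` (every `q`, also
`q = 2`). -/
theorem result :
    (∀ q : ℝ≥0∞, 1 ≤ q → Monotonic (1 / 2) q) ∧
    (∀ p : ℝ, p < 0 → ∀ q : ℝ≥0∞, 1 ≤ q → ¬ Monotonic p q) ∧
    (∀ p : ℝ, 0 < p → p ≤ 1 / 40 → ∀ q : ℝ≥0∞, 1 ≤ q → ¬ Monotonic p q) ∧
    (∀ p : ℝ, 1 < p → ∀ q : ℝ≥0∞, 1 ≤ q → q ≠ 2 → ¬ Monotonic p q) ∧
    (∀ p : ℝ, 2 < p → ∀ q : ℝ≥0∞, 1 ≤ q → ¬ Monotonic p q) :=
  ⟨fun _ hq => H93M.mono_half hq,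
    fun _ hp _ hq => H93M.not_mono_neg hp hq,
    fun _ hp hp' _ hq => H93M.not_mono_small_pos hp hp' hq,
    fun _ hp _ hq hq' => H93M.not_mono_gt_one hp hq hq',
    fun _ hp _ hq => H93M.not_mono_large hp hq⟩

end Pool.Agent.Results.MP_9bce2c_an.PowerMeansSchatten
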